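import Pool.Agent.Helper57.REC.Stmts1

/-!
# DN1: fields with the same split places
-/

set_option autoImplicit false

open scoped Classical
open NumberField

namespace REC

open Pool.Agent.Helper13.ZL (Pl q HasMean)
open MU (Gal Zb Over CongPow)

/-- a finite change of the function does not change the mean value -/
theorem dn1_mean_unique {F : Type} [Field F] [NumberField F] (φ₁ φ₂ : Pl F → ℝ) (m₁ m₂ : ℝ)
    (B : Finset (Pl F)) (hφ : ∀ v, v ∉ B → φ₁ v = φ₂ v) (hb : ∀ v, |φ₁ v - φ₂ v| ≤ 1)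
    (h₁ : HasMean φ₁ m₁) (h₂ : HasMean φ₂ m₂) : m₁ = m₂ := by
  obtain ⟨C₁, h1⟩ := h₁
  obtain ⟨C₂, h2⟩ := h₂
  have hq : ∀ v : Pl F, (1 : ℝ) ≤ q v := by
    intro v
    have : q v ≠ 0 := by
      intro h0
      exact v.ne_bot (Ideal.absNorm_eq_zero_iff.mp h0)
    exact_mod_cast Nat.one_le_iff_ne_zero.mpr this
  have key : ∀ s : ℝ, 1 < s → s ≤ 2 →
      |(m₁ - m₂) * Real.log (1 / (s - 1))| ≤ C₁ + C₂ + B.card := by
    intro s hs hs'
    obtain ⟨s1, e1⟩ := h1 s hs hs'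
    obtain ⟨s2, e2⟩ := h2 s hs hs'
    have h3 : (∑' v : Pl F, φ₁ v * (q v : ℝ) ^ (-s)) - (∑' v : Pl F, φ₂ v * (q v : ℝ) ^ (-s)) =
        ∑ v ∈ B, (φ₁ v - φ₂ v) * (q v : ℝ) ^ (-s) := by
      rw [← s1.tsum_sub s2, tsum_eq_sum (s := B)]
      · exact Finset.sum_congr rfl fun v _ => by ring
      · intro v hv
        rw [hφ v hv, sub_self]
    have h4 : |∑ v ∈ B, (φ₁ v - φ₂ v) * (q v : ℝ) ^ (-s)| ≤ B.card := by
      refine (Finset.abs_sum_le_sum_abs _ _).trans ?_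
      rw [Finset.card_eq_sum_ones, Nat.cast_sum]
      refine Finset.sum_le_sum fun v _ => ?_
      rw [abs_mul, Nat.cast_one]
      have h5 : |(q v : ℝ) ^ (-s)| ≤ 1 := by
        rw [abs_of_nonneg (Real.rpow_nonneg (by linarith [hq v]) _)]
        exact Real.rpow_le_one_of_one_le_of_nonpos (hq v) (by linarith)
      exact mul_le_one₀ (hb v) (abs_nonneg _) h5
    rw [← h3] at h4
    have h5 := abs_le.mp e1
    have h6 := abs_le.mp e2
    have h7 := abs_le.mp h4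
    rw [abs_le, sub_mul]
    constructor <;> linarith [h5.1, h5.2, h6.1, h6.2, h7.1, h7.2]
  by_contra hne
  have hm : 0 < |m₁ - m₂| := abs_pos.mpr (sub_ne_zero.mpr hne)
  set D : ℝ := max 0 ((C₁ + C₂ + B.card) / |m₁ - m₂|) + 1 with hD
  have hD1 : 0 < D := by
    have := le_max_left (0 : ℝ) ((C₁ + C₂ + B.card) / |m₁ - m₂|)
    linarith
  have h8 := key (1 + Real.exp (-D)) (by linarith [Real.exp_pos (-D)])
    (by linarith [Real.exp_le_one_iff.mpr (by linarith : -D ≤ 0)])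
  have h9 : Real.log (1 / (1 + Real.exp (-D) - 1)) = D := by
    rw [add_sub_cancel_left, one_div, ← Real.exp_neg, neg_neg, Real.log_exp]
  rw [h9, abs_mul, abs_of_pos hD1] at h8
  have h10 : D ≤ (C₁ + C₂ + B.card) / |m₁ - m₂| := by
    rw [le_div_iff₀ hm]
    linarith [mul_comm |m₁ - m₂| D]
  have := le_max_right (0 : ℝ) ((C₁ + C₂ + B.card) / |m₁ - m₂|)
  linarith

/-- monotonicity -/
theorem SplY.mono {F : Type} [Field F] [NumberField F] {Y₁ Y₂ : Subgroup (Gal F)} (h : Y₁ ≤ Y₂)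
    {v : Pl F} (hv : SplY Y₁ v) : SplY Y₂ v := by
  obtain ⟨𝔓, h1, h2, σ, h3, h4⟩ := hv
  exact ⟨𝔓, h1, fun τ hτ => h (h2 τ hτ), σ, h h3, h4⟩

/-- fields with the same split places -/
theorem st_DN1 (hSPY : ST_SPY) : ST_DN1 := by
  intro F _ _ Y₁ Y₂ hn₁ hn₂ ho₁ ho₂ hle B hB
  have h1 := hSPY F Y₁ hn₁ ho₁
  have h2 := hSPY F Y₂ hn₂ ho₂
  have h3 := dn1_mean_unique _ _ _ _ B (fun v hv => by
    by_cases h : SplY Y₁ v
    · rw [if_pos h, if_pos (h.mono hle)]
    · rw [if_neg h, if_neg fun h' => h (hB v hv h')]) (fun v => by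
    by_cases h : SplY Y₁ v <;> by_cases h' : SplY Y₂ v <;> simp [h, h']) h1 h2
  have hf₁ : Y₁.index ≠ 0 := by
    have := Subgroup.quotient_finite_of_isOpen Y₁ ho₁
    rw [Subgroup.index]
    exact Nat.card_pos.ne'
  have hf₂ : Y₂.index ≠ 0 := by
    have := Subgroup.quotient_finite_of_isOpen Y₂ ho₂
    rw [Subgroup.index]
    exact Nat.card_pos.ne'
  have h4 : Y₁.index = Y₂.index := by
    rw [one_div, one_div, inv_inj] at h3
    exact_mod_cast h3
  have h5 : Y₁.relIndex Y₂ = 1 := by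
    have := Subgroup.relIndex_mul_index hle
    rw [h4] at this
    exact Nat.eq_of_mul_eq_mul_right (Nat.pos_of_ne_zero hf₂) (by rw [this, one_mul])
  exact le_antisymm hle (Subgroup.relIndex_eq_one.mp h5)

end REC
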